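import Pool.Agent.N303.SJ.Stm

/-!
# Project SJ (helper303), leaf LOC: the localised energy in a ball (helper475)
-/

set_option autoImplicit false

open MeasureTheory Metric Set
open scoped ENNReal RealInnerProductSpace NNReal

namespace Pool.Agent.N475.SJ

open Pool.Agent.N303.SH Pool.Agent.N303.SJ

theorem blk_cont {n : ℕ} (J : Finset ℕ) (g : S n → ℂ) : Continuous (blk J g) := by
  unfold blk
  exact continuous_finsetSum _ fun k _ => cp_cont k g

theorem int_cC {n : ℕ} {g : S n → ℂ} (hg : Continuous g) : Integrable g (sg n) :=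
  hg.integrable_of_hasCompactSupport (HasCompactSupport.of_compactSpace g)

theorem int_cR {n : ℕ} {g : S n → ℝ} (hg : Continuous g) : Integrable g (sg n) :=
  hg.integrable_of_hasCompactSupport (HasCompactSupport.of_compactSpace g)

/-- the geometry -/
theorem geo {n : ℕ} (w w0 : S n) {ρ r0 r : ℝ} (hρ : 0 < ρ) (hr0 : ρ ≤ r0 / 2) (hr : 0 < r)
    (h : r • (w : E n) ∈ ball (r0 • (w0 : E n)) ρ) :
    r ∈ Ioo (r0 - ρ) (r0 + ρ) ∧ ‖(w : E n) - w0‖ ≤ 2 * ρ / r0 := by
  have h0 : 0 < r0 := by linarith
  rw [mem_ball, dist_eq_norm] at h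
  have h1 : |r - r0| < ρ := by
    have h2 := abs_norm_sub_norm_le (r • (w : E n)) (r0 • (w0 : E n))
    rw [norm_smul, norm_smul, S_norm, S_norm, mul_one, mul_one, Real.norm_of_nonneg hr.le,
      Real.norm_of_nonneg h0.le] at h2
    exact h2.trans_lt h
  constructor
  · rw [abs_lt] at h1
    exact ⟨by linarith, by linarith⟩
  · have h3 : (w : E n) - w0 = r0⁻¹ • ((r0 - r) • (w : E n) + (r • (w : E n) - r0 • (w0 : E n))) := by
      rw [sub_smul, ← add_sub_assoc, sub_add_cancel, ← smul_sub, smul_smul, inv_mul_cancel₀ h0.ne',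
        one_smul]
    rw [h3, norm_smul, norm_inv, Real.norm_of_nonneg h0.le]
    have h4 : ‖(r0 - r) • (w : E n) + (r • (w : E n) - r0 • (w0 : E n))‖ ≤ 2 * ρ := by
      refine (norm_add_le _ _).trans ?_
      rw [norm_smul, S_norm, mul_one, Real.norm_eq_abs, abs_sub_comm]
      linarith
    rw [div_eq_inv_mul]
    exact mul_le_mul_of_nonneg_left h4 (by positivity)

theorem t_loc (h : S_PT) : S_LOC := by
  intro c K J m hS g hg hK p hp w0 ρ r0 hρ hr0 hw
  have h0 : 0 < r0 := by linarith
  set u : E (c + 2) → ℂ := ft (blk J g) with hu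
  have huc : Continuous u := ft_cont (int_cC (blk_cont J g))
  have hpc : Continuous (fun w : S (c + 2) => p w) := p.continuous
  -- polar coordinates
  have hF : Measurable (fun y => ‖u y‖ₑ ^ (2 : ℝ)) := huc.measurable.enorm.pow_const _
  rw [← lintegral_indicator measurableSet_ball,
    polar (by omega) _ (hF.indicator measurableSet_ball)]
  set Q : S (c + 2) → ℝ → ℝ≥0∞ := fun w r => ENNReal.ofReal (r ^ (c + 1)) *
    ENNReal.ofReal (4 * (p w ^ 2 * ‖u (r • (w : E (c + 2)))‖ ^ 2)) with hQ
  have hQm : Measurable (Function.uncurry Q) := by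
    have h1 : Continuous (fun z : S (c + 2) × ℝ => z.2 ^ (c + 1)) := by fun_prop
    have h2 : Continuous (fun z : S (c + 2) × ℝ =>
        4 * (p z.1 ^ 2 * ‖u (z.2 • (z.1 : E (c + 2)))‖ ^ 2)) := by fun_prop
    exact h1.measurable.ennreal_ofReal.mul h2.measurable.ennreal_ofReal
  have hstep : ∀ w : S (c + 2),
      ∫⁻ r in Ioi (0 : ℝ), ENNReal.ofReal (r ^ (c + 2 - 1)) *
        (ball (r0 • (w0 : E (c + 2))) ρ).indicator (fun y => ‖u y‖ₑ ^ (2 : ℝ)) (r • (w : E (c + 2))) ≤
      ∫⁻ r in Ioo (r0 - ρ) (r0 + ρ), Q w r := by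
    intro w
    calc _ ≤ ∫⁻ r in Ioi (0 : ℝ), (Ioo (r0 - ρ) (r0 + ρ)).indicator (Q w) r := by
          apply setLIntegral_mono' measurableSet_Ioi
          intro r hr
          by_cases hb : r • (w : E (c + 2)) ∈ ball (r0 • (w0 : E (c + 2))) ρ
          · obtain ⟨h1, h2⟩ := geo w w0 hρ hr0 hr hb
            rw [indicator_of_mem hb, indicator_of_mem h1, hQ]
            dsimp only
            have h3 := hw w h2
            have h4 : 1 ≤ 4 * p w ^ 2 := by
              have h5 : (1 / 2 : ℝ) ^ 2 ≤ |p w| ^ 2 := pow_le_pow_left₀ (by norm_num) h3 2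
              rw [sq_abs] at h5
              linarith
            apply mul_le_mul' le_rfl
            have h5 : ‖u (r • (w : E (c + 2)))‖ₑ ^ (2 : ℝ) =
                ENNReal.ofReal (‖u (r • (w : E (c + 2)))‖ ^ 2) := by
              rw [← ofReal_norm, ENNReal.ofReal_rpow_of_nonneg (norm_nonneg _) (by norm_num)]
              norm_num
            rw [h5]
            apply ENNReal.ofReal_le_ofReal
            have h6 := sq_nonneg ‖u (r • (w : E (c + 2)))‖
            nlinarith
          · rw [indicator_of_notMem hb, mul_zero]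
            exact zero_le
      _ ≤ ∫⁻ r, (Ioo (r0 - ρ) (r0 + ρ)).indicator (Q w) r := setLIntegral_le_lintegral _ _
      _ = _ := lintegral_indicator measurableSet_Ioo _
  refine (lintegral_mono hstep).trans ?_
  rw [lintegral_lintegral_swap (by
    exact hQm.aemeasurable)]
  -- the inner integral
  set A : ℕ → ℝ := fun k => ∫ y, p y ^ 2 * ‖cp k g y‖ ^ 2 ∂(sg (c + 2)) with hA
  have hA0 : ∀ k, 0 ≤ A k := fun k => integral_nonneg fun y => by positivity
  have hin : ∀ r ∈ Ioo (r0 - ρ) (r0 + ρ), ∫⁻ w, Q w r ∂(sg (c + 2)) =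
      4 * ∑ k ∈ J, ENNReal.ofReal (A k) * ENNReal.ofReal (‖Ic c k r‖ ^ 2 * r ^ (c + 1)) := by
    intro r hr
    have hr1 : 0 < r := by
      have := hr.1
      linarith
    have h1 := (h c K J m hS g hg hK p hp).2 r hr1.le
    have hc1 : Continuous (fun w : S (c + 2) => 4 * (p w ^ 2 * ‖u (r • (w : E (c + 2)))‖ ^ 2)) := by
      fun_prop
    rw [hQ]
    dsimp only
    rw [lintegral_const_mul _ hc1.measurable.ennreal_ofReal,
      ← ofReal_integral_eq_lintegral_ofReal (int_cR hc1)
        (Filter.Eventually.of_forall fun w => by positivity), integral_const_mul, h1,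
      ENNReal.ofReal_mul (by norm_num), ENNReal.ofReal_sum_of_nonneg (fun k _ =>
        mul_nonneg (by positivity) (hA0 k))]
    have h4 : ENNReal.ofReal 4 = 4 := by norm_num
    rw [h4, mul_left_comm, Finset.mul_sum]
    congr 1
    refine Finset.sum_congr rfl fun k _ => ?_
    rw [ENNReal.ofReal_mul (by positivity), ENNReal.ofReal_mul (by positivity)]
    ring
  rw [setLIntegral_congr_fun measurableSet_Ioo hin, lintegral_const_mul, lintegral_finsetSum]
  · apply le_of_eq
    congr 1
    refine Finset.sum_congr rfl fun k _ => ?_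
    rw [lintegral_const_mul]
    have := Ic_cont c k
    exact Continuous.measurable (by fun_prop) |>.ennreal_ofReal
  · intro k _
    have := Ic_cont c k
    exact (Continuous.measurable (by fun_prop) |>.ennreal_ofReal).const_mul _
  · apply Finset.measurable_sum
    intro k _
    have := Ic_cont c k
    exact (Continuous.measurable (by fun_prop) |>.ennreal_ofReal).const_mul _

end Pool.Agent.N475.SJ
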